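import Mathlib

/-!
Bigraphs, cut-involutions, folds, cut-percolating sequences (definitions).
-/

namespace Pool.Agent.Lib.MP_98b297_co

open Equiv

/-- A bigraph is given by its two (finite) vertex classes `V₁`, `V₂` and the relation
`E : V₁ → V₂ → Prop`; its edges are the pairs `(v, w)` with `E v w`. -/
abbrev BiRel (V₁ V₂ : Type) := V₁ → V₂ → Prop

variable {V₁ V₂ : Type}

/-- The edge set of a bigraph. -/
def edges (E : BiRel V₁ V₂) : Set (V₁ × V₂) := {e | E e.1 e.2}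

/-- The underlying graph on all vertices, `V₁ ⊕ V₂`. -/
def graph (E : BiRel V₁ V₂) : SimpleGraph (V₁ ⊕ V₂) where
  Adj x y := match x, y with
    | Sum.inl v, Sum.inr w => E v w
    | Sum.inr w, Sum.inl v => E v w
    | _, _ => False
  symm := ⟨by
    intro x y h
    rcases x with v | w <;> rcases y with v' | w' <;> exact h⟩
  loopless := ⟨by
    intro x h
    rcases x with v | w <;> simp at h⟩

/-- Pairs of permutations of the two classes. -/
abbrev PP (V₁ V₂ : Type) := Perm V₁ × Perm V₂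

/-- The automorphism group of a bigraph: automorphisms of the graph preserving `V₁` and `V₂`. -/
def Aut (E : BiRel V₁ V₂) : Subgroup (PP V₁ V₂) where
  carrier := {φ | ∀ v w, E (φ.1 v) (φ.2 w) ↔ E v w}
  mul_mem' := by
    intro φ ψ hφ hψ v w
    simp only [Prod.fst_mul, Prod.snd_mul, Perm.mul_apply]
    rw [hφ, hψ]
  one_mem' := by intro v w; simp
  inv_mem' := by
    intro φ hφ v w
    have h := hφ (φ.1⁻¹ v) (φ.2⁻¹ w)
    have h1 : φ.1 (φ.1⁻¹ v) = v := φ.1.apply_symm_apply v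
    have h2 : φ.2 (φ.2⁻¹ w) = w := φ.2.apply_symm_apply w
    rw [h1, h2] at h
    exact h.symm

/-- The action of a pair of permutations on all vertices. -/
def act (φ : PP V₁ V₂) (x : V₁ ⊕ V₂) : V₁ ⊕ V₂ := Sum.map φ.1 φ.2 x

/-- The set of fixed vertices. -/
def Fix (φ : PP V₁ V₂) : Set (V₁ ⊕ V₂) := {x | act φ x = x}

/-- `G - Fix(φ)`. -/
def minusFix (E : BiRel V₁ V₂) (φ : PP V₁ V₂) : SimpleGraph ((Fix φ)ᶜ : Set (V₁ ⊕ V₂)) :=
  (graph E).induce (Fix φ)ᶜ

/-- A cut-involution: an automorphism of order two such that `G - Fix(φ)` is disconnected. -/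
def IsCutInvolution (E : BiRel V₁ V₂) (φ : PP V₁ V₂) : Prop :=
  φ ∈ Aut E ∧ orderOf φ = 2 ∧ ¬ (minusFix E φ).Connected

/-- `L` is (the vertex set of) a union of connected components of `G - Fix(φ)`. -/
def IsUnionOfComponents (E : BiRel V₁ V₂) (φ : PP V₁ V₂) (L : Set (V₁ ⊕ V₂)) : Prop :=
  ∃ S : Set (minusFix E φ).ConnectedComponent, L = ⋃ c ∈ S, Subtype.val '' c.supp

/-- A fold `(φ, L)`. -/
structure IsFold (E : BiRel V₁ V₂) (φ : PP V₁ V₂) (L : Set (V₁ ⊕ V₂)) : Prop where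
  cut : IsCutInvolution E φ
  comps : IsUnionOfComponents E φ L
  disj_fix : Disjoint L (Fix φ)
  disj_image : Disjoint L (act φ '' L)
  disj_fix_image : Disjoint (Fix φ) (act φ '' L)
  cover : L ∪ Fix φ ∪ act φ '' L = Set.univ

open Classical in
/-- The left-folding map of `(φ, L)` on all vertices: the identity on `L` and `φ` elsewhere. -/
noncomputable def foldMap (φ : PP V₁ V₂) (L : Set (V₁ ⊕ V₂)) (x : V₁ ⊕ V₂) : V₁ ⊕ V₂ :=
  if x ∈ L then x else act φ x

/-- The preimage of a set `F` of edges under the left-folding map, inside `E(G)`: the edges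
`(v, w)` of `G` whose two ends are mapped to the two ends of an edge in `F`. -/
def foldPreimage (E : BiRel V₁ V₂) (φ : PP V₁ V₂) (L : Set (V₁ ⊕ V₂)) (F : Set (V₁ × V₂)) :
    Set (V₁ × V₂) :=
  {e ∈ edges E | ∃ f ∈ F, foldMap φ L (Sum.inl e.1) = Sum.inl f.1 ∧
    foldMap φ L (Sum.inr e.2) = Sum.inr f.2}

/-- `G` is cut-percolating: there is a sequence `E₀, …, E_m` of sets of edges with `|E₀| = 1`,
`E_m = E(G)` and each `E_i` the preimage of `E_{i-1}` under the left-folding map of a fold. -/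
def CutPercolating (E : BiRel V₁ V₂) : Prop :=
  ∃ (m : ℕ) (F : ℕ → Set (V₁ × V₂)), (∀ i ≤ m, F i ⊆ edges E) ∧ (∃ e, F 0 = {e}) ∧
    F m = edges E ∧
    ∀ i < m, ∃ (φ : PP V₁ V₂) (L : Set (V₁ ⊕ V₂)), IsFold E φ L ∧
      F (i + 1) = foldPreimage E φ L (F i)

/-- `Γ_fold(G)`: the group generated by the cut-involutions that extend to a fold. -/
def foldGroup (E : BiRel V₁ V₂) : Subgroup (PP V₁ V₂) :=
  Subgroup.closure {φ | ∃ L, IsFold E φ L}

/-- `G` is edge-transitive under `Γ`. -/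
def EdgeTransitive (E : BiRel V₁ V₂) (Γ : Subgroup (PP V₁ V₂)) : Prop :=
  (edges E).Nonempty ∧
    ∀ e ∈ edges E, ∀ e' ∈ edges E, ∃ g ∈ Γ, (g.1 e.1, g.2 e.2) = e'

end Pool.Agent.Lib.MP_98b297_co
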