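import Pool.Agent.Lib.MP_98b297_co.Defs

/-!
Two disjoint copies of a bigraph: if `E` is edge-transitive under its automorphism group, then
two disjoint copies of `E` are edge-transitive under the fold group.
-/

namespace Pool.Agent.Lib.MP_98b297_co

open Equiv

variable {V₁ V₂ : Type}

/-- A colouring that is constant along edges is constant along reachability. -/
theorem eq_of_reachable {X Y : Type*} {H : SimpleGraph X} (c : X → Y)
    (hc : ∀ x y, H.Adj x y → c x = c y) {x y : X} (h : H.Reachable x y) : c x = c y := by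
  obtain ⟨w⟩ := h
  induction w with
  | nil => rfl
  | cons hadj _ ih => exact (hc _ _ hadj).trans ih

theorem isUnionOfComponents_of_closed {E : BiRel V₁ V₂} {φ : PP V₁ V₂} {L : Set (V₁ ⊕ V₂)}
    (h1 : ∀ x ∈ L, x ∉ Fix φ)
    (h2 : ∀ x ∈ L, ∀ y, y ∉ Fix φ → (graph E).Adj x y → y ∈ L) :
    IsUnionOfComponents E φ L := by
  refine ⟨{c | ∃ x : ((Fix φ)ᶜ : Set (V₁ ⊕ V₂)), x.1 ∈ L ∧
    (minusFix E φ).connectedComponentMk x = c}, ?_⟩
  ext y
  rw [Set.mem_iUnion₂]
  constructor
  · intro hy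
    exact ⟨(minusFix E φ).connectedComponentMk ⟨y, h1 y hy⟩, ⟨⟨y, h1 y hy⟩, hy, rfl⟩,
      ⟨y, h1 y hy⟩, rfl, rfl⟩
  · rintro ⟨c, ⟨⟨x, hxF⟩, hxL, hxc⟩, ⟨⟨y', hyF⟩, hyc, rfl⟩⟩
    have hreach : (minusFix E φ).Reachable ⟨x, hxF⟩ ⟨y', hyF⟩ := by
      rw [← SimpleGraph.ConnectedComponent.eq]
      rw [hxc]
      exact hyc.symm
    have := eq_of_reachable (H := minusFix E φ) (fun z => (z.1 ∈ L)) (by
      intro a b hab
      have hab' : (graph E).Adj a.1 b.1 := hab
      apply propext
      exact ⟨fun ha => h2 _ ha _ b.2 hab', fun hb => h2 _ hb _ a.2 hab'.symm⟩) hreach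
    exact this ▸ hxL

theorem closed_of_isUnionOfComponents {E : BiRel V₁ V₂} {φ : PP V₁ V₂} {L : Set (V₁ ⊕ V₂)}
    (h : IsUnionOfComponents E φ L) {x y : V₁ ⊕ V₂} (hx : x ∈ L) (hy : y ∉ Fix φ)
    (hxy : (graph E).Adj x y) : y ∈ L := by
  obtain ⟨S, rfl⟩ := h
  simp only [Set.mem_iUnion, Set.mem_image, exists_prop] at hx ⊢
  obtain ⟨c, hc, x', hx', rfl⟩ := hx
  refine ⟨c, hc, ⟨y, hy⟩, ?_, rfl⟩
  have hadj : (minusFix E φ).Adj x' ⟨y, hy⟩ := hxy
  have : (minusFix E φ).connectedComponentMk x' = (minusFix E φ).connectedComponentMk ⟨y, hy⟩ :=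
    SimpleGraph.ConnectedComponent.sound hadj.reachable
  rw [SimpleGraph.ConnectedComponent.mem_supp_iff] at hx' ⊢
  rw [← this, hx']

/-- Two disjoint copies of a bigraph. -/
def double (E : BiRel V₁ V₂) : BiRel (Bool × V₁) (Bool × V₂) :=
  fun v w => v.1 = w.1 ∧ E v.2 w.2

/-- The copy a vertex lies in. -/
def comp : (Bool × V₁) ⊕ (Bool × V₂) → Bool
  | Sum.inl v => v.1
  | Sum.inr w => w.1

theorem comp_eq_of_adj {E : BiRel V₁ V₂} {x y : (Bool × V₁) ⊕ (Bool × V₂)}
    (h : (graph (double E)).Adj x y) : comp x = comp y := by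
  rcases x with v | w <;> rcases y with v' | w'
  · exact h.elim
  · exact h.1
  · exact h.1.symm
  · exact h.elim

/-- The permutation exchanging the two copies along `a`. -/
def swapPerm {V : Type} (a : Perm V) : Perm (Bool × V) where
  toFun p := match p with
    | (false, v) => (true, a v)
    | (true, v) => (false, a.symm v)
  invFun p := match p with
    | (false, v) => (true, a v)
    | (true, v) => (false, a.symm v)
  left_inv := by rintro ⟨b, v⟩; cases b <;> simp
  right_inv := by rintro ⟨b, v⟩; cases b <;> simp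

@[simp] theorem swapPerm_false {V : Type} (a : Perm V) (v : V) :
    swapPerm a (false, v) = (true, a v) := rfl

@[simp] theorem swapPerm_true {V : Type} (a : Perm V) (v : V) :
    swapPerm a (true, v) = (false, a.symm v) := rfl

theorem swapPerm_fst {V : Type} (a : Perm V) (p : Bool × V) : (swapPerm a p).1 = !p.1 := by
  rcases p with ⟨b, v⟩; cases b <;> rfl

theorem swapPerm_mul_self {V : Type} (a : Perm V) : swapPerm a * swapPerm a = 1 := by
  ext p
  all_goals
    rcases p with ⟨b, v⟩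
    cases b <;> simp [Perm.mul_apply]

/-- The automorphism exchanging the two copies along the automorphism `α`. -/
def swap (α : PP V₁ V₂) : PP (Bool × V₁) (Bool × V₂) := (swapPerm α.1, swapPerm α.2)

theorem swap_mem_Aut {E : BiRel V₁ V₂} {α : PP V₁ V₂} (hα : α ∈ Aut E) :
    swap α ∈ Aut (double E) := by
  have hα' : ∀ v w, E (α.1.symm v) (α.2.symm w) ↔ E v w := (Aut E).inv_mem hα
  have hα'' : ∀ v w, E (α.1 v) (α.2 w) ↔ E v w := hα
  rintro ⟨b, v⟩ ⟨c, w⟩
  cases b <;> cases c <;> simp [swap, double, hα', hα'']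

theorem comp_act_swap (α : PP V₁ V₂) (x : (Bool × V₁) ⊕ (Bool × V₂)) :
    comp (act (swap α) x) = !comp x := by
  rcases x with v | w
  · exact swapPerm_fst α.1 v
  · exact swapPerm_fst α.2 w

theorem Fix_swap (α : PP V₁ V₂) : Fix (swap α) = ∅ := by
  ext x
  simp only [Fix, Set.mem_ofPred_eq, Set.mem_empty_iff_false, iff_false]
  intro h
  have := comp_act_swap α x
  rw [h] at this
  cases hx : comp x <;> simp [hx] at this

theorem act_act_swap (α : PP V₁ V₂) (x : (Bool × V₁) ⊕ (Bool × V₂)) :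
    act (swap α) (act (swap α) x) = x := by
  rcases x with v | w
  · have := congrArg (fun p => p v) (swapPerm_mul_self α.1)
    simpa [act, swap, Perm.mul_apply] using this
  · have := congrArg (fun p => p w) (swapPerm_mul_self α.2)
    simpa [act, swap, Perm.mul_apply] using this

theorem isFold_swap [Nonempty V₁] {E : BiRel V₁ V₂} {α : PP V₁ V₂} (hα : α ∈ Aut E) :
    IsFold (double E) (swap α) {x | comp x = false} := by
  obtain ⟨v0⟩ := ‹Nonempty V₁›
  have himage : act (swap α) '' {x | comp x = false} = {x | comp x = true} := by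
    ext x
    simp only [Set.mem_image, Set.mem_ofPred_eq]
    constructor
    · rintro ⟨y, hy, rfl⟩
      rw [comp_act_swap, hy]; rfl
    · intro hx
      refine ⟨act (swap α) x, ?_, act_act_swap α x⟩
      rw [comp_act_swap, hx]; rfl
  refine ⟨⟨swap_mem_Aut hα, ?_, ?_⟩, ?_, ?_, ?_, ?_, ?_⟩
  · apply orderOf_eq_prime
    · rw [pow_two]
      exact Prod.ext (swapPerm_mul_self α.1) (swapPerm_mul_self α.2)
    · intro h
      have h1 := congrArg (fun p => (p.1 (false, v0)).1) h
      simp [swap] at h1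
  · intro h
    have hmem : ∀ x : (Bool × V₁) ⊕ (Bool × V₂), x ∈ (Fix (swap α))ᶜ := by
      intro x; rw [Fix_swap]; simp
    have hreach := h.preconnected ⟨Sum.inl (false, v0), hmem _⟩ ⟨Sum.inl (true, v0), hmem _⟩
    have := eq_of_reachable (H := minusFix (double E) (swap α)) (fun z => comp z.1) (by
      intro a b hab
      exact comp_eq_of_adj (E := E) hab) hreach
    simp [comp] at this
  · apply isUnionOfComponents_of_closed
    · intro x _; rw [Fix_swap]; simp
    · intro x hx y _ hxy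
      have := comp_eq_of_adj hxy
      simp only [Set.mem_ofPred_eq] at hx ⊢
      rw [← this, hx]
  · rw [Fix_swap]; simp
  · rw [himage, Set.disjoint_left]
    intro x hx hx'
    simp only [Set.mem_ofPred_eq] at hx hx'
    rw [hx] at hx'
    exact absurd hx' (by decide)
  · rw [Fix_swap]; simp
  · rw [himage, Fix_swap]
    ext x
    simp only [Set.union_empty, Set.mem_union, Set.mem_ofPred_eq, Set.mem_univ, iff_true]
    cases comp x <;> simp

theorem swap_mem_foldGroup [Nonempty V₁] {E : BiRel V₁ V₂} {α : PP V₁ V₂} (hα : α ∈ Aut E) :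
    swap α ∈ foldGroup (double E) :=
  Subgroup.subset_closure ⟨_, isFold_swap hα⟩

/-- If `E` is edge-transitive under its full automorphism group, then two disjoint copies of `E`
are edge-transitive under the fold group. -/
theorem edgeTransitive_double {E : BiRel V₁ V₂} (h : EdgeTransitive E (Aut E)) :
    EdgeTransitive (double E) (foldGroup (double E)) := by
  obtain ⟨⟨⟨v0, w0⟩, he0⟩, htrans⟩ := h
  haveI : Nonempty V₁ := ⟨v0⟩
  refine ⟨⟨((false, v0), (false, w0)), rfl, he0⟩, ?_⟩
  rintro ⟨⟨b, v⟩, ⟨b', w⟩⟩ ⟨hb, he⟩ ⟨⟨c, v'⟩, ⟨c', w'⟩⟩ ⟨hc, he'⟩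
  simp only at hb hc he he'
  subst hb hc
  -- an automorphism taking `(v, w)` to `(v', w')` and one going back
  obtain ⟨α, hα, hα'⟩ := htrans (v, w) he (v', w') he'
  obtain ⟨β, hβ, hβ'⟩ := htrans (v', w') he' (v, w) he
  simp only [Prod.mk.injEq] at hα' hβ'
  have h1 := swap_mem_foldGroup hα
  have h2 := swap_mem_foldGroup hβ
  have h3 := swap_mem_foldGroup (E := E) (α := 1) (Aut E).one_mem
  have hα1 : α.1.symm v' = v := by rw [← hα'.1]; simp
  have hα2 : α.2.symm w' = w := by rw [← hα'.2]; simp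
  have hβ1 : β.1.symm v = v' := by rw [← hβ'.1]; simp
  have hβ2 : β.2.symm w = w' := by rw [← hβ'.2]; simp
  cases b <;> cases c
  · refine ⟨swap β * swap 1, (foldGroup _).mul_mem h2 h3, ?_⟩
    simp [swap, Perm.mul_apply, hβ1, hβ2]
  · refine ⟨swap α, h1, ?_⟩
    simp [swap, hα'.1, hα'.2]
  · refine ⟨swap β, h2, ?_⟩
    simp [swap, hβ1, hβ2]
  · refine ⟨swap α * swap 1, (foldGroup _).mul_mem h1 h3, ?_⟩
    simp only [swap, Prod.fst_mul, Prod.snd_mul, Perm.mul_apply, swapPerm_true, swapPerm_false,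
      Prod.mk.injEq, true_and]
    exact ⟨hα'.1, hα'.2⟩

end Pool.Agent.Lib.MP_98b297_co
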