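import Pool.Agent.Lib.MP_98b297_co.Double

/-!
Two disjoint copies of the Heawood graph are edge-transitive under the fold group but not
cut-percolating.
-/

namespace Pool.Agent.Lib.MP_98b297_co

open Equiv

/-- The Heawood graph: points and lines of the Fano plane; the point `x` lies on the line `y` iff
`y - x ∈ {1, 2, 4}`. -/
def heawood : BiRel (ZMod 7) (ZMod 7) := fun x y => y - x = 1 ∨ y - x = 2 ∨ y - x = 4

instance (x y : ZMod 7) : Decidable (heawood x y) := by unfold heawood; infer_instance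

theorem heawood_join : ∀ x x' : ZMod 7, ∃ y, heawood x y ∧ heawood x' y := by decide

theorem heawood_unique : ∀ x x' y y' : ZMod 7, x ≠ x' → heawood x y → heawood x' y →
    heawood x y' → heawood x' y' → y = y' := by
  decide +kernel

theorem heawood_iff (x y : ZMod 7) : heawood x y ↔ x = y - 1 ∨ x = y - 2 ∨ x = y - 4 := by
  unfold heawood
  constructor
  · rintro (h | h | h)
    · left; rw [← h]; ring
    · right; left; rw [← h]; ring
    · right; right; rw [← h]; ring
  · rintro (h | h | h)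
    · left; rw [h]; ring
    · right; left; rw [h]; ring
    · right; right; rw [h]; ring

theorem heawood_card {a b c d y : ZMod 7} (ha : heawood a y) (hb : heawood b y)
    (hc : heawood c y) (hd : heawood d y) (hab : a ≠ b) (hac : a ≠ c) (had : a ≠ d)
    (hbc : b ≠ c) (hbd : b ≠ d) (hcd : c ≠ d) : False := by
  rw [heawood_iff] at ha hb hc hd
  rcases ha with rfl | rfl | rfl <;> rcases hb with rfl | rfl | rfl <;>
    rcases hc with rfl | rfl | rfl <;> rcases hd with rfl | rfl | rfl <;> contradiction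

theorem heawood_special : ∀ x x' : ZMod 7, x ≠ x' → ∃ y u w : ZMod 7, heawood x y ∧
    heawood u y ∧ heawood w y ∧ ¬ heawood x' y ∧ u ≠ w ∧ u ≠ x ∧ w ≠ x := by
  decide +kernel

theorem heawood_exists_points : ∀ y : ZMod 7, ∃ u w : ZMod 7, heawood u y ∧ heawood w y ∧
    u ≠ w := by
  decide +kernel

/-- The automorphism `x ↦ u x + a`. -/
def affine (u u' a : ZMod 7) (h : u * u' = 1) : Perm (ZMod 7) where
  toFun x := u * x + a
  invFun x := u' * (x - a)
  left_inv x := by
    show u' * (u * x + a - a) = x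
    rw [add_sub_cancel_right, ← mul_assoc, mul_comm u' u, h, one_mul]
  right_inv x := by
    show u * (u' * (x - a)) + a = x
    rw [← mul_assoc, h, one_mul, sub_add_cancel]

theorem heawood_mult : ∀ s s' : ZMod 7, (s = 1 ∨ s = 2 ∨ s = 4) → (s' = 1 ∨ s' = 2 ∨ s' = 4) →
    ∃ u u' : ZMod 7, u * u' = 1 ∧ u * s = s' ∧
      ∀ t : ZMod 7, (u * t = 1 ∨ u * t = 2 ∨ u * t = 4) ↔ (t = 1 ∨ t = 2 ∨ t = 4) := by
  decide +kernel

theorem edgeTransitive_heawood : EdgeTransitive heawood (Aut heawood) := by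
  refine ⟨⟨(0, 1), by unfold edges heawood; left; decide⟩, ?_⟩
  rintro ⟨x, y⟩ h ⟨x', y'⟩ h'
  obtain ⟨u, u', huu', hus, hu⟩ := heawood_mult (y - x) (y' - x') h h'
  refine ⟨(affine u u' (x' - u * x) huu', affine u u' (x' - u * x) huu'), ?_, ?_⟩
  · intro v w
    have : (affine u u' (x' - u * x) huu') w - (affine u u' (x' - u * x) huu') v
        = u * (w - v) := by
      simp only [affine, Equiv.coe_fn_mk]; ring
    unfold heawood
    simp only
    rw [this, hu]
  · simp only [affine, Equiv.coe_fn_mk, Prod.mk.injEq]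
    refine ⟨by ring, ?_⟩
    have : u * y + (x' - u * x) = u * (y - x) + x' := by ring
    rw [this, hus]; ring

section Fold

variable {φ : PP (Bool × ZMod 7) (Bool × ZMod 7)} {L : Set ((Bool × ZMod 7) ⊕ (Bool × ZMod 7))}

theorem aut_iff (h : IsFold (double heawood) φ L) (v w) :
    double heawood (φ.1 v) (φ.2 w) ↔ double heawood v w := h.cut.1 v w

theorem invol (h : IsFold (double heawood) φ L) : φ * φ = 1 := by
  have := pow_orderOf_eq_one φ
  rwa [h.cut.2.1, pow_two] at this

theorem invol1 (h : IsFold (double heawood) φ L) (v) : φ.1 (φ.1 v) = v := by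
  have := congrArg (fun p => p.1 v) (invol h)
  simpa [Perm.mul_apply] using this

theorem invol2 (h : IsFold (double heawood) φ L) (v) : φ.2 (φ.2 v) = v := by
  have := congrArg (fun p => p.2 v) (invol h)
  simpa [Perm.mul_apply] using this

theorem act_act (h : IsFold (double heawood) φ L) (x) : act φ (act φ x) = x := by
  rcases x with v | w
  · simp [act, invol1 h]
  · simp [act, invol2 h]

theorem closed_L (h : IsFold (double heawood) φ L) {x y} (hx : x ∈ L) (hy : y ∉ Fix φ)
    (hxy : (graph (double heawood)).Adj x y) : y ∈ L :=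
  closed_of_isUnionOfComponents h.comps hx hy hxy

theorem not_fix_of_L (h : IsFold (double heawood) φ L) {x} (hx : x ∈ L) : x ∉ Fix φ :=
  Set.disjoint_left.mp h.disj_fix hx

theorem image_not_fix (h : IsFold (double heawood) φ L) {x} (hx : x ∈ L) : act φ x ∉ Fix φ :=
  fun h' => Set.disjoint_left.mp h.disj_fix_image h' ⟨x, hx, rfl⟩

theorem image_not_L (h : IsFold (double heawood) φ L) {x} (hx : x ∈ L) : act φ x ∉ L :=
  fun h' => Set.disjoint_left.mp h.disj_image h' ⟨x, hx, rfl⟩

/-- Every vertex is in `L`, or fixed, or mapped into `L`. -/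
theorem trichotomy (h : IsFold (double heawood) φ L) (x) : x ∈ L ∨ x ∈ Fix φ ∨ act φ x ∈ L := by
  have hx : x ∈ L ∪ Fix φ ∪ act φ '' L := by rw [h.cover]; trivial
  rcases hx with (hx | hx) | ⟨y, hy, rfl⟩
  · exact Or.inl hx
  · exact Or.inr (Or.inl hx)
  · right; right; rw [act_act h]; exact hy

/-- If one point stays in its copy, all points of the copy do. -/
theorem copy_preserved (h : IsFold (double heawood) φ L) {v u : Bool × ZMod 7}
    (hv : (φ.1 v).1 = v.1) (hu : u.1 = v.1) : (φ.1 u).1 = v.1 := by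
  obtain ⟨y, hy1, hy2⟩ := heawood_join v.2 u.2
  have e1 : double heawood v (v.1, y) := ⟨rfl, hy1⟩
  have e2 : double heawood u (v.1, y) := ⟨hu, hy2⟩
  have f1 := ((aut_iff h _ _).mpr e1).1
  have f2 := ((aut_iff h _ _).mpr e2).1
  rw [f2, ← f1, hv]

/-- Two points of `L` in a preserved copy coincide. -/
theorem unique_in_L (h : IsFold (double heawood) φ L) {v u : Bool × ZMod 7}
    (hv : (φ.1 v).1 = v.1) (hu : u.1 = v.1) (hvL : Sum.inl v ∈ L) (huL : Sum.inl u ∈ L) :
    v = u := by
  by_contra hne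
  have hu' := copy_preserved h hv hu
  have hv'R : Sum.inl (φ.1 v) ∉ L := image_not_L h hvL
  have hu'R : Sum.inl (φ.1 u) ∉ L := image_not_L h huL
  have hu'F : (Sum.inl (φ.1 u) : (Bool × ZMod 7) ⊕ (Bool × ZMod 7)) ∉ Fix φ :=
    image_not_fix h huL
  obtain ⟨y, hy1, hy2⟩ := heawood_join v.2 (φ.1 u).2
  have e1 : double heawood v (v.1, y) := ⟨rfl, hy1⟩
  have e2 : double heawood (φ.1 u) (v.1, y) := ⟨hu', hy2⟩
  -- the line is fixed
  have hfix : (Sum.inr (v.1, y) : (Bool × ZMod 7) ⊕ (Bool × ZMod 7)) ∈ Fix φ := by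
    by_contra hnf
    have hlL : (Sum.inr (v.1, y) : (Bool × ZMod 7) ⊕ (Bool × ZMod 7)) ∈ L :=
      closed_L h hvL hnf (show double heawood v (v.1, y) from e1)
    exact hu'R (closed_L h hlL hu'F (show double heawood (φ.1 u) (v.1, y) from e2))
  have hfix' : φ.2 (v.1, y) = (v.1, y) := by
    have : act φ (Sum.inr (v.1, y)) = Sum.inr (v.1, y) := hfix
    simpa [act] using this
  have e3 : double heawood (φ.1 v) (v.1, y) := by
    have := (aut_iff h _ _).mpr e1
    rwa [hfix'] at this
  have e4 : double heawood u (v.1, y) := by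
    have := (aut_iff h _ _).mpr e2
    rwa [hfix', invol1 h] at this
  have key : ∀ p q : Bool × ZMod 7, p.1 = v.1 → q.1 = v.1 → p ≠ q → p.2 ≠ q.2 :=
    fun p q hp hq hpq h2 => hpq (Prod.ext (hp.trans hq.symm) h2)
  refine heawood_card e1.2 e4.2 e3.2 e2.2 ?_ ?_ ?_ ?_ ?_ ?_
  · exact key _ _ rfl hu hne
  · exact key _ _ rfl hv (fun h' => hv'R (h' ▸ hvL))
  · exact key _ _ rfl hu' (fun h' => hu'R (h' ▸ hvL))
  · exact key _ _ hu hv (fun h' => hv'R (h' ▸ huL))
  · exact key _ _ hu hu' (fun h' => hu'R (h' ▸ huL))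
  · exact key _ _ hv hu' (fun h' => hne (φ.1.injective h'))

/-- No point of `L` stays in its copy. -/
theorem false_of_L (h : IsFold (double heawood) φ L) {v : Bool × ZMod 7}
    (hv : (φ.1 v).1 = v.1) (hvL : Sum.inl v ∈ L) : False := by
  have hv'R : Sum.inl (φ.1 v) ∉ L := image_not_L h hvL
  have hne : v ≠ φ.1 v := fun h' => hv'R (h' ▸ hvL)
  -- all other points of the copy are fixed
  have hfixed : ∀ u : Bool × ZMod 7, u.1 = v.1 → u ≠ v → u ≠ φ.1 v → φ.1 u = u := by
    intro u hu huv huv'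
    rcases trichotomy h (Sum.inl u) with h1 | h1 | h1
    · exact (huv (unique_in_L h hv hu hvL h1).symm).elim
    · have : act φ (Sum.inl u) = Sum.inl u := h1
      simpa [act] using this
    · have h2 : v = φ.1 u := unique_in_L h hv (copy_preserved h hv hu) hvL h1
      exact (huv' (by rw [h2, invol1 h])).elim
  have h2ne : v.2 ≠ (φ.1 v).2 := fun h' => hne (Prod.ext hv.symm h')
  obtain ⟨y, u, w, hxy, huy, hwy, hx'y, huw, hux, hwx⟩ := heawood_special _ _ h2ne
  have hu' : u ≠ (φ.1 v).2 := fun h' => hx'y (h' ▸ huy)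
  have hw' : w ≠ (φ.1 v).2 := fun h' => hx'y (h' ▸ hwy)
  have fu : φ.1 (v.1, u) = (v.1, u) := hfixed _ rfl
    (fun h' => hux (congrArg Prod.snd h')) (fun h' => hu' (congrArg Prod.snd h'))
  have fw : φ.1 (v.1, w) = (v.1, w) := hfixed _ rfl
    (fun h' => hwx (congrArg Prod.snd h')) (fun h' => hw' (congrArg Prod.snd h'))
  have eu : double heawood (v.1, u) (v.1, y) := ⟨rfl, huy⟩
  have ew : double heawood (v.1, w) (v.1, y) := ⟨rfl, hwy⟩
  have eu' := (aut_iff h _ _).mpr eu
  have ew' := (aut_iff h _ _).mpr ew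
  rw [fu] at eu'
  rw [fw] at ew'
  have hy : y = (φ.2 (v.1, y)).2 := heawood_unique u w _ _ huw huy hwy eu'.2 ew'.2
  have hl : φ.2 (v.1, y) = (v.1, y) := Prod.ext eu'.1.symm hy.symm
  have ev : double heawood v (v.1, y) := ⟨rfl, hxy⟩
  have ev' := (aut_iff h _ _).mpr ev
  rw [hl] at ev'
  exact hx'y ev'.2

/-- A point that stays in its copy is fixed. -/
theorem fixed_of_same_copy (h : IsFold (double heawood) φ L) {v : Bool × ZMod 7}
    (hv : (φ.1 v).1 = v.1) : φ.1 v = v := by
  rcases trichotomy h (Sum.inl v) with h1 | h1 | h1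
  · exact (false_of_L h hv h1).elim
  · have : act φ (Sum.inl v) = Sum.inl v := h1
    simpa [act] using this
  · refine (false_of_L h (v := φ.1 v) ?_ h1).elim
    rw [invol1 h, hv]

/-- Every fold exchanges the two copies (points). -/
theorem exchanges1 (h : IsFold (double heawood) φ L) (v : Bool × ZMod 7) :
    (φ.1 v).1 ≠ v.1 := by
  intro hv
  have h1 : ∀ u : Bool × ZMod 7, u.1 = v.1 → φ.1 u = u := fun u hu =>
    fixed_of_same_copy h ((copy_preserved h hv hu).trans hu.symm)
  have h2 : ∀ u : Bool × ZMod 7, φ.1 u = u := by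
    intro u
    by_cases hu : u.1 = v.1
    · exact h1 u hu
    · by_cases hu' : (φ.1 u).1 = v.1
      · exact φ.1.injective (h1 _ hu')
      · apply fixed_of_same_copy h
        revert hu hu'
        cases u.1 <;> cases v.1 <;> cases (φ.1 u).1 <;> simp
  have h3 : ∀ w : Bool × ZMod 7, φ.2 w = w := by
    rintro ⟨b, y⟩
    obtain ⟨u, w, hu, hw, huw⟩ := heawood_exists_points y
    have eu : double heawood (b, u) (b, y) := ⟨rfl, hu⟩
    have ew : double heawood (b, w) (b, y) := ⟨rfl, hw⟩
    have eu' := (aut_iff h _ _).mpr eu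
    have ew' := (aut_iff h _ _).mpr ew
    rw [h2] at eu' ew'
    exact Prod.ext eu'.1.symm (heawood_unique u w _ _ huw eu'.2 ew'.2 hu hw)
  have h4 : φ = 1 := Prod.ext (Equiv.ext h2) (Equiv.ext h3)
  have := h.cut.2.1
  rw [h4, orderOf_one] at this
  exact absurd this (by decide)

theorem exchanges2 (h : IsFold (double heawood) φ L) (w : Bool × ZMod 7) :
    (φ.2 w).1 ≠ w.1 := by
  obtain ⟨u, _, hu, _, _⟩ := heawood_exists_points w.2
  have e : double heawood (w.1, u) w := ⟨rfl, hu⟩
  have e' := (aut_iff h _ _).mpr e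
  have := exchanges1 h (w.1, u)
  rw [e'.1] at this
  exact this

theorem Fix_empty (h : IsFold (double heawood) φ L) (x) : x ∉ Fix φ := by
  intro hx
  have hx' : act φ x = x := hx
  rcases x with v | w
  · have : φ.1 v = v := by simpa [act] using hx'
    exact exchanges1 h v (by rw [this])
  · have : φ.2 w = w := by simpa [act] using hx'
    exact exchanges2 h w (by rw [this])

theorem mem_L_adj (h : IsFold (double heawood) φ L) {v w : Bool × ZMod 7}
    (e : double heawood v w) : Sum.inl v ∈ L ↔ Sum.inr w ∈ L :=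
  ⟨fun hv => closed_L h hv (Fix_empty h _) (show double heawood v w from e),
    fun hw => closed_L h hw (Fix_empty h _) (show double heawood v w from e)⟩

theorem mem_L_copy (h : IsFold (double heawood) φ L) {v u : Bool × ZMod 7}
    (hu : v.1 = u.1) : Sum.inl v ∈ L ↔ Sum.inl u ∈ L := by
  obtain ⟨y, hy1, hy2⟩ := heawood_join v.2 u.2
  have e1 : double heawood v (v.1, y) := ⟨rfl, hy1⟩
  have e2 : double heawood u (v.1, y) := ⟨hu.symm, hy2⟩
  rw [mem_L_adj h e1, mem_L_adj h e2]

/-- The property of having at most one edge in each copy is preserved by preimages under left-folding maps. -/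
theorem step (h : IsFold (double heawood) φ L) {F : Set ((Bool × ZMod 7) × (Bool × ZMod 7))}
    (hF : ∀ e ∈ F, ∀ e' ∈ F, e.1.1 = e'.1.1 → e = e') :
    ∀ e ∈ foldPreimage (double heawood) φ L F, ∀ e' ∈ foldPreimage (double heawood) φ L F,
      e.1.1 = e'.1.1 → e = e' := by
  rintro ⟨v, w⟩ ⟨he, ⟨f1, f2⟩, hf, hf1, hf2⟩ ⟨v', w'⟩ ⟨he', ⟨g1, g2⟩, hg, hg1, hg2⟩ heq
  simp only at heq hf1 hf2 hg1 hg2
  have he1 : double heawood v w := he
  have he2 : double heawood v' w' := he'
  by_cases hv : Sum.inl v ∈ L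
  · have hw := (mem_L_adj h he1).mp hv
    have hv' := (mem_L_copy h heq).mp hv
    have hw' := (mem_L_adj h he2).mp hv'
    simp only [foldMap, hv, hw, hv', hw', if_true, Sum.inl.injEq, Sum.inr.injEq]
      at hf1 hf2 hg1 hg2
    subst hf1 hf2 hg1 hg2
    exact hF _ hf _ hg heq
  · have hw : Sum.inr w ∉ L := fun h' => hv ((mem_L_adj h he1).mpr h')
    have hv' : Sum.inl v' ∉ L := fun h' => hv ((mem_L_copy h heq).mpr h')
    have hw' : Sum.inr w' ∉ L := fun h' => hv' ((mem_L_adj h he2).mpr h')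
    simp only [foldMap, hv, hw, hv', hw', if_false, act, Sum.map_inl, Sum.map_inr,
      Sum.inl.injEq, Sum.inr.injEq] at hf1 hf2 hg1 hg2
    subst hf1 hf2 hg1 hg2
    have h1 := exchanges1 h v
    have h2 := exchanges1 h v'
    have h3 : (φ.1 v).1 = (φ.1 v').1 := by
      revert h1 h2 heq
      cases v.1 <;> cases v'.1 <;> cases (φ.1 v).1 <;> cases (φ.1 v').1 <;> simp
    have h4 := hF _ hf _ hg h3
    simp only [Prod.mk.injEq] at h4
    exact Prod.ext (φ.1.injective h4.1) (φ.2.injective h4.2)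

end Fold

theorem not_cutPercolating_double_heawood : ¬ CutPercolating (double heawood) := by
  rintro ⟨m, F, -, ⟨e0, h0⟩, hm, hstep⟩
  have key : ∀ i ≤ m, ∀ e ∈ F i, ∀ e' ∈ F i, e.1.1 = e'.1.1 → e = e' := by
    intro i
    induction i with
    | zero =>
      intro _ e he e' he' _
      rw [h0] at he he'
      rw [Set.mem_singleton_iff.mp he, Set.mem_singleton_iff.mp he']
    | succ i ih =>
      intro hi
      obtain ⟨φ, L, hfold, hF⟩ := hstep i hi
      rw [hF]
      exact step hfold (ih (Nat.le_of_succ_le hi))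
  have h1 : ((false, (0 : ZMod 7)), (false, (1 : ZMod 7))) ∈ edges (double heawood) := by
    refine ⟨rfl, Or.inl ?_⟩
    decide
  have h2 : ((false, (1 : ZMod 7)), (false, (2 : ZMod 7))) ∈ edges (double heawood) := by
    refine ⟨rfl, Or.inl ?_⟩
    decide
  rw [← hm] at h1 h2
  have := key m le_rfl _ h1 _ h2 rfl
  revert this
  decide

end Pool.Agent.Lib.MP_98b297_co
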